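import Pool.Agent.H.MP_d24e49_pr.Asymp

/-!
# Heavily loaded local search allocation: the maximum load is not `m / n + O(R₂)`

The conjectured upper bound `m / n + C R₂` for the maximum load of the local search allocation
with `m = ω(n R₂)` balls fails on the cycles: for a suitable `m = ω(n R₂)` and every constant
`C`, the probability that the maximum load is at most `m / n + C R₂` tends to `0`.
-/

namespace Pool.Agent.Results.MP_d24e49_pr.CycleDisproof

open Pool.Agent.H.MP_d24e49_pr SimpleGraph Filter Topology

/-- The cycles are connected and vertex-transitive, their `R₂` tends to infinity, and for some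
numbers of balls `m = ω(n R₂)` the probability that the maximum load is at most
`m / n + C R₂` tends to `0`, for every constant `C`. -/
theorem result :
    (∀ k : ℕ, (cycleGraph (k + 3)).Connected) ∧
    (∀ k : ℕ, VertexTransitive (cycleGraph (k + 3))) ∧
    Tendsto (fun k : ℕ => R2 (cycleGraph (k + 3))) atTop atTop ∧
    ∃ m : ℕ → ℕ,
      Tendsto (fun k : ℕ => (m k : ℝ) / ((k + 3 : ℕ) * (R2 (cycleGraph (k + 3)) : ℝ)))
        atTop atTop ∧
      ∀ C : ℝ, Tendsto
        (fun k : ℕ => (loads (cycleGraph (k + 3)) (m k)).toOuterMeasure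
          {X | (maxLoad X : ℝ) ≤ (m k : ℝ) / (k + 3 : ℕ) +
            C * (R2 (cycleGraph (k + 3)) : ℝ)})
        atTop (𝓝 0) :=
  ⟨fun _ => cycle_connected, fun _ => cycle_vt, RR_tendsto, balls, balls_tendsto,
    prob_tendsto⟩

end Pool.Agent.Results.MP_d24e49_pr.CycleDisproof
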